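import Pool.Agent.Q68.OV.KS

/-!
# Finitely many trilinear forms for each scheme

The closure properties `Bnd`, `WUni` are finitary: for each scheme `X` there are finitely many trilinear
forms such that every property with these closure properties, which is true for the hypersurfaces
`T = 1` of these forms, is true for `X`.
-/

set_option autoImplicit false

open CategoryTheory CategoryTheory.Limits AlgebraicGeometry Pool.Agent.Y116.UV Pool.Agent.Z125.UN
  Pool.Agent.Q193.LT Pool.Agent.Q49.WU

universe w

namespace Pool.Agent.Q68.OV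

/-- A trilinear form `∑ T_{ijl} x_i y_j z_l` in `a + b + c` variables. -/
structure Form (F : Type) where
  /-- the number of the variables `x_i` -/
  a : ℕ
  /-- the number of the variables `y_j` -/
  b : ℕ
  /-- the number of the variables `z_l` -/
  c : ℕ
  /-- the coefficients -/
  T : Fin a → Fin b → Fin c → F

variable {F : Type} [Field F]

/-- One of the three blocks of variables has at most `m` variables. -/
def Form.Block (t : Form F) (m : ℕ) : Prop := t.a ≤ m ∨ t.b ≤ m ∨ t.c ≤ m

/-- The hypersurface `T(x, y, z) = 1`. -/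
noncomputable def Form.hyp (t : Form F) : Sch F := hypS t.T

/-- Every property `Q` with the closure properties `Bnd`, which is true for the hypersurfaces of some
finite list of forms with a block of at most `m` variables, is true for `X`. -/
def Reached (m : ℕ) (X : Sch F) : Prop :=
  ∃ L : List (Form F), (∀ t ∈ L, t.Block m) ∧
    ∀ Q : Sch F → Prop, Bnd True Q → (∀ t ∈ L, Q t.hyp) → Q X

theorem bnd_reached (m : ℕ) : Bnd True (Reached m : Sch F → Prop) := by
  have two : ∀ {X Y Z : Sch F}, (∀ Q : Sch F → Prop, Bnd True Q → Q X → Q Y → Q Z) →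
      Reached m X → Reached m Y → Reached m Z := by
    rintro X Y Z h ⟨L, hL, h1⟩ ⟨L', hL', h2⟩
    refine ⟨L ++ L', fun t ht => (List.mem_append.mp ht).elim (hL t) (hL' t), fun Q hQ h3 => ?_⟩
    exact h Q hQ (h1 Q hQ fun t ht => h3 t (List.mem_append_left _ ht))
      (h2 Q hQ fun t ht => h3 t (List.mem_append_right _ ht))
  have one : ∀ {X Y : Sch F}, (∀ Q : Sch F → Prop, Bnd True Q → Q X → Q Y) →
      Reached m X → Reached m Y := by
    rintro X Y h ⟨L, hL, h1⟩
    exact ⟨L, hL, fun Q hQ h3 => h Q hQ (h1 Q hQ h3)⟩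
  exact
  { iso := fun hX e => one fun Q hQ => hQ.iso hX e
    total := fun i j hX ht => two fun Q hQ => hQ.total i j hX ht
    opened := fun i j hX ht => two fun Q hQ => hQ.opened i j hX ht
    closed := fun i j hX ht => two fun Q hQ => hQ.closed i j hX ht
    space := fun n => ⟨[], by simp, fun Q hQ _ => hQ.space n⟩
    jouanolou := fun B _ _ _ l f U j hj hr h =>
      one (X := aff F (Jou f)) (Y := U) (fun Q hQ h1 => hQ.jouanolou B l f U j hj hr h1) h
    torus := fun B _ _ _ h => one (X := aff F (LaurentPolynomial B)) (Y := aff F B)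
      (fun Q hQ h1 => hQ.torus B h1) h
    bundle := fun B _ _ _ l f U j hj hr h =>
      one (X := U) (Y := aff F (Jou f)) (fun Q hQ h1 => hQ.bundle B l f U j hj hr h1) h }

/-- **Finitely many forms.** Every scheme of dimension at most `n` is reached from finitely many forms
with a block of at most `n + 2` variables. -/
theorem reached [PerfectField F] {n : ℕ} (X : Sch F) (hX : FT True X)
    (hd : topologicalKrullDim X.left ≤ n) : Reached (n + 2) X := by
  refine (dim_iff (bnd_reached (n + 2)) n).mpr (fun a b c T h => ?_) X hX hd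
  refine ⟨[⟨a, b, c, T⟩], ?_, fun Q _ h1 => h1 ⟨a, b, c, T⟩ (List.mem_singleton.mpr rfl)⟩
  intro t ht
  rw [List.mem_singleton] at ht
  subst ht
  exact h

/-- The same with indices. -/
def ReachedAt (N : ℤ) (M : ℤ) (X : Sch F) : Prop :=
  ∃ L : List (Form F), ∀ Q : ℤ → Sch F → Prop, WUni True Q →
    (∀ t ∈ L, Q (N + (t.a - 1)) t.hyp) → Q M X

theorem wuni_reached (N : ℤ) : WUni True (ReachedAt N : ℤ → Sch F → Prop) := by
  have two : ∀ {M : ℤ} {X Y Z : Sch F},
      (∀ Q : ℤ → Sch F → Prop, WUni True Q → Q M X → Q M Y → Q M Z) →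
      ReachedAt N M X → ReachedAt N M Y → ReachedAt N M Z := by
    rintro M X Y Z h ⟨L, h1⟩ ⟨L', h2⟩
    refine ⟨L ++ L', fun Q hQ h3 => ?_⟩
    exact h Q hQ (h1 Q hQ fun t ht => h3 t (List.mem_append_left _ ht))
      (h2 Q hQ fun t ht => h3 t (List.mem_append_right _ ht))
  have one : ∀ {M M' : ℤ} {X Y : Sch F},
      (∀ Q : ℤ → Sch F → Prop, WUni True Q → Q M X → Q M' Y) →
      ReachedAt N M X → ReachedAt N M' Y := by
    rintro M M' X Y h ⟨L, h1⟩
    exact ⟨L, fun Q hQ h3 => h Q hQ (h1 Q hQ h3)⟩
  exact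
  { iso := fun M {X Y} hX e => one fun Q hQ => hQ.iso M hX e
    total := fun M {Z X U} i j hX ht => two fun Q hQ => hQ.total M i j hX ht
    opened := fun M {Z X U} i j hX ht => two fun Q hQ => hQ.opened M i j hX ht
    closed := fun M {Z X U} i j hX ht => two fun Q hQ => hQ.closed M i j hX ht
    space := fun M n => ⟨[], fun Q hQ _ => hQ.space M n⟩
    jouanolou := fun M B _ _ _ l f U j hj hr =>
      ⟨fun h => one (M := M + (l - 1)) (M' := M) (X := aff F (Jou f)) (Y := U)
          (fun Q hQ h1 => (hQ.jouanolou M B l f U j hj hr).mp h1) h,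
        fun h => one (M := M) (M' := M + (l - 1)) (X := U) (Y := aff F (Jou f))
          (fun Q hQ h1 => (hQ.jouanolou M B l f U j hj hr).mpr h1) h⟩
    torus := fun M B _ _ _ h => one (M := M) (M' := M) (X := aff F (LaurentPolynomial B))
      (Y := aff F B) (fun Q hQ h1 => hQ.torus M B h1) h }

/-- **Finitely many forms, with one index.** -/
theorem reachedAt (N : ℤ) (X : Sch F) (hX : FT True X) : ReachedAt N N X := by
  refine (all_iff (wuni_reached N)).mpr (fun a b c T => ?_) X hX
  exact ⟨[⟨a, b, c, T⟩], fun Q _ h1 => h1 ⟨a, b, c, T⟩ (List.mem_singleton.mpr rfl)⟩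

end Pool.Agent.Q68.OV
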