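import Pool.Agent.Q68.OV.One

/-!
# Regulators with values in a rational line, for one scheme, and finitely many cubic hypersurfaces
-/

set_option autoImplicit false

open CategoryTheory CategoryTheory.Limits AlgebraicGeometry Pool.Agent.Y116.UV Pool.Agent.Z125.UN
  Pool.Agent.Q193.LT Pool.Agent.Q49.WU

universe w u

namespace Pool.Agent.Q68.OV

/-- Motivic cohomology, Deligne cohomology (as rational vector spaces), the regulator, and the period
`Π` on a part `T` of the motivic cohomology of `S`, with a real number `lval` (the value of an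
L-function). -/
structure LineData (F : Type) [Field F] (S : Sch F) (m0 : ℤ) where
  /-- motivic cohomology, of the index `m` -/
  M : ℤ → Sch F → ModuleCat.{w} ℚ
  /-- Deligne cohomology, of the index `m` -/
  D : ℤ → Sch F → ModuleCat.{w} ℚ
  /-- the regulator -/
  reg : ∀ (m : ℤ) (Y : Sch F), M m Y →ₗ[ℚ] D m Y
  /-- the correspondences from `S` to `Y` which map the index `m0` to the index `m` -/
  Cyc : ℤ → Sch F → Type u
  /-- the operation `c_*` on motivic cohomology -/
  actM : ∀ {m : ℤ} {Y : Sch F}, Cyc m Y → M m0 S →ₗ[ℚ] M m Y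
  /-- the operation `c_*` on Deligne cohomology -/
  actD : ∀ {m : ℤ} {Y : Sch F}, Cyc m Y → D m0 S →ₗ[ℚ] D m Y
  /-- the diagonal -/
  diag : Cyc m0 S
  /-- the part of the motivic cohomology of `S` in question -/
  T : Submodule ℚ (M m0 S)
  /-- the corresponding part of the Deligne cohomology of `S` -/
  P : Submodule ℚ (D m0 S)
  /-- the period, normalized by a power of `2 π i` -/
  per : P →ₗ[ℚ] ℝ
  /-- the value of the L-function -/
  lval : ℝ

section

variable {F : Type} [Field F] {S : Sch F} {m0 : ℤ}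

/-- The classes of `P` whose period is a rational multiple of `lval`. -/
noncomputable def LineData.V (D : LineData.{w, u} F S m0) : Submodule ℚ (D.D m0 S) :=
  ((ℚ ∙ D.lval).comap D.per).map D.P.subtype

/-- Known properties: the diagonal operates as the identity, the regulator maps `T` to `P`, the period is
injective on `P` (a line over `ℝ`), `lval` is not zero, and the correspondences of `S` operate on the line
`P` by rational numbers. -/
structure IsLine (D : LineData.{w, u} F S m0) : Prop where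
  diagM : ∀ x, D.actM D.diag x = x
  diagD : ∀ y, D.actD D.diag y = y
  reg_mem : ∀ x ∈ D.T, D.reg m0 S x ∈ D.P
  per_inj : Function.Injective D.per
  lval_ne : D.lval ≠ 0
  scalar : ∀ c : D.Cyc m0 S, ∃ q : ℚ, ∀ y ∈ D.P, D.actD c y = q • y

/-- The statement in question: the periods of the nonzero elements of `T` are nonzero rational multiples
of `lval`. -/
def PeriodStatement (D : LineData.{w, u} F S m0) : Prop :=
  ∀ x ∈ D.T, x ≠ 0 → ∀ h : D.reg m0 S x ∈ D.P,
    ∃ q : ℚ, q ≠ 0 ∧ D.per ⟨D.reg m0 S x, h⟩ = q * D.lval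

/-- The sum of the images `c_* V` in the Deligne cohomology of `Y`. -/
noncomputable def lineImage (D : LineData.{w, u} F S m0) (m : ℤ) (Y : Sch F) : Submodule ℚ (D.D m Y) :=
  ⨆ c : D.Cyc m Y, D.V.map (D.actD c)

/-- Correspondences `c` from `S` to `Y` map the elements of `T` with regulator zero to zero, and the
regulators of the elements of `T` to the sum of the images of `V`. -/
def LineStable (D : LineData.{w, u} F S m0) (m : ℤ) (Y : Sch F) : Prop :=
  ∀ c : D.Cyc m Y, (∀ x ∈ D.T, D.reg m0 S x = 0 → D.actM c x = 0) ∧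
    ∀ x ∈ D.T, D.actD c (D.reg m0 S x) ∈ lineImage D m Y

/-- The corresponding set of classes. -/
noncomputable def lineReach (D : LineData.{w, u} F S m0) : Reach.{w, 0, u} F ℚ S m0 where
  H m Y := ModuleCat.of ℚ (D.M m Y × D.D m Y)
  A m Y := (⊥ : Submodule ℚ (D.M m Y)).prod (lineImage D m Y)
  Corr := D.Cyc
  act c := (D.actM c).prodMap (D.actD c)
  one := D.diag
  J := {x | (x.1 ∈ D.T ∧ D.reg m0 S x.1 = 0) ∧ ∃ z ∈ D.T, x.2 = D.reg m0 S z}

variable {D : LineData.{w, u} F S m0}

theorem V_eq (hD : IsLine D) : lineImage D m0 S = D.V := by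
  apply le_antisymm
  · refine iSup_le fun c => ?_
    rintro _ ⟨y, hy, rfl⟩
    obtain ⟨q, hq⟩ := hD.scalar c
    have h1 : y ∈ D.P := by
      obtain ⟨z, _, rfl⟩ := hy
      exact z.2
    rw [hq y h1]
    exact D.V.smul_mem q hy
  · intro y hy
    refine Submodule.mem_iSup_of_mem D.diag ⟨y, hy, hD.diagD y⟩

theorem line_isReach (hD : IsLine D) : IsReach (lineReach D) where
  act_mem m Y _ c x hx := by
    obtain ⟨h1, h2⟩ := hx
    refine ⟨?_, ?_⟩
    · change x.1 = 0 at h1
      change D.actM c x.1 = 0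
      rw [h1, map_zero]
    · change x.2 ∈ lineImage D m0 S at h2
      rw [V_eq hD] at h2
      exact Submodule.mem_iSup_of_mem c ⟨x.2, h2, rfl⟩
  act_one x := by
    change ((D.actM D.diag x.1, D.actD D.diag x.2) : D.M m0 S × D.D m0 S) = x
    rw [hD.diagM, hD.diagD]
    rfl

theorem mem_V {y : D.D m0 S} (hy : y ∈ D.P) :
    y ∈ D.V ↔ ∃ q : ℚ, D.per ⟨y, hy⟩ = q * D.lval := by
  constructor
  · rintro ⟨z, hz, hzy⟩
    obtain ⟨q, hq⟩ := Submodule.mem_span_singleton.mp hz
    have h1 : z = ⟨y, hy⟩ := Subtype.ext hzy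
    refine ⟨q, ?_⟩
    rw [← h1, ← hq, Rat.smul_def]
  · rintro ⟨q, hq⟩
    refine ⟨⟨y, hy⟩, Submodule.mem_span_singleton.mpr ⟨q, ?_⟩, rfl⟩
    rw [hq, Rat.smul_def]

theorem line_holds_iff (hD : IsLine D) : Holds (lineReach D) ↔ PeriodStatement D := by
  constructor
  · intro h x hx hx0 hP
    have h1 : D.reg m0 S x ∈ D.V := by
      have h2 := (h (0, D.reg m0 S x) ⟨⟨D.T.zero_mem, map_zero _⟩, x, hx, rfl⟩).2
      rwa [← V_eq hD]
    obtain ⟨q, hq⟩ := (mem_V hP).mp h1
    refine ⟨q, ?_, hq⟩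
    rintro rfl
    apply hx0
    have h3 : D.reg m0 S x = 0 := by
      have h4 : (⟨D.reg m0 S x, hP⟩ : D.P) = 0 := hD.per_inj (by rw [hq, map_zero]; simp)
      exact congrArg Subtype.val h4
    exact (h (x, 0) ⟨⟨hx, h3⟩, 0, D.T.zero_mem, (map_zero _).symm⟩).1
  · rintro h x ⟨⟨h1, h2⟩, z, hz, h3⟩
    refine ⟨?_, ?_⟩
    · change x.1 = 0
      by_contra h0
      obtain ⟨q, hq, h4⟩ := h x.1 h1 h0 (hD.reg_mem _ h1)
      have h5 : (⟨D.reg m0 S x.1, hD.reg_mem _ h1⟩ : D.P) = 0 := Subtype.ext h2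
      rw [h5, map_zero] at h4
      exact mul_ne_zero (Rat.cast_ne_zero.mpr hq) hD.lval_ne h4.symm
    · change x.2 ∈ lineImage D m0 S
      rw [V_eq hD, h3]
      by_cases h0 : z = 0
      · rw [h0, map_zero]
        exact D.V.zero_mem
      · obtain ⟨q, _, h4⟩ := h z hz h0 (hD.reg_mem _ hz)
        exact (mem_V _).mpr ⟨q, h4⟩

theorem line_closed_iff (m : ℤ) (Y : Sch F) : Closed (lineReach D) m Y ↔ LineStable D m Y := by
  constructor
  · intro h c
    refine ⟨fun x hx h0 => ?_, fun x hx => ?_⟩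
    · exact (h c (x, 0) ⟨⟨hx, h0⟩, 0, D.T.zero_mem, (map_zero _).symm⟩).1
    · exact (h c (0, D.reg m0 S x) ⟨⟨D.T.zero_mem, map_zero _⟩, x, hx, rfl⟩).2
  · rintro h c x ⟨⟨h1, h2⟩, z, hz, h3⟩
    refine ⟨(h c).1 x.1 h1 h2, ?_⟩
    change D.actD c x.2 ∈ lineImage D m Y
    rw [h3]
    exact (h c).2 z hz

end

/-- **Periods of one smooth projective scheme and finitely many cubic hypersurfaces.** -/
theorem line_finite {F : Type} [Field F] [PerfectField F] {S : Sch F} (hS : SmoothProj S) {n : ℕ}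
    (hn : topologicalKrullDim S.left ≤ n) (n1 : ℕ) (m0 : ℤ) :
    ∃ (L L' : List (Form F)) (G : List Graph),
      (∀ t ∈ L, t.Block (n + 2) ∧ ¬ t.Block (n1 + 2)) ∧
      ∀ (D : LineData.{w, u} F S m0) (C : PairData.{w} F (ℤ × ℤ) ℚ), IsLine D → IsWeightPair C →
        WeightGen C → (∀ Y, SmoothProj Y → ∀ m, (BijAt C Prod.fst m Y ↔ LineStable D m Y)) →
        (∀ Y : Sch F, SmoothProj Y → topologicalKrullDim Y.left ≤ n1 → BijAll C Y) →
        (PeriodStatement D ↔ ∀ t ∈ L, BijAll C t.hyp) ∧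
        (PeriodStatement D ↔ ∀ t ∈ L', BijAt C Prod.fst (m0 - 1 + t.a) t.hyp) ∧
        (Frac F → (PeriodStatement D ↔ ∀ g ∈ G, BijAll C (g.hyp F))) ∧
        (PeriodStatement D → ∀ t : Form F, BijAll C t.hyp) ∧
        (∀ t : Form F, t.Block (n1 + 2) → BijAll C t.hyp) := by
  obtain ⟨L, L', G, hL, h⟩ := reach_finite.{w, 0, u} hS hn n1 m0
  refine ⟨L, L', G, hL, fun D C hD hC hg bij low => ?_⟩
  have h1 := h ℚ (lineReach D) C (line_isReach hD) hC hg
    (fun Y hY m => (bij Y hY m).trans (line_closed_iff m Y).symm) low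
  simpa only [line_holds_iff hD] using h1

end Pool.Agent.Q68.OV
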