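import Pool.Agent.Q68.OV.One

/-!
# The regulator of one smooth projective scheme and finitely many cubic hypersurfaces
-/

set_option autoImplicit false

open CategoryTheory CategoryTheory.Limits AlgebraicGeometry Pool.Agent.Y116.UV Pool.Agent.Z125.UN
  Pool.Agent.Q193.LT Pool.Agent.Q49.WU

universe w w' u

namespace Pool.Agent.Q68.OV

/-- Two functors of correspondences and a map between them, for instance motivic cohomology, Deligne
cohomology and the regulator. -/
structure RegData (F : Type) [Field F] (E : Type w') [CommRing E] (S : Sch F) (m0 : ℤ) where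
  /-- the first functor, of the index `m` -/
  M : ℤ → Sch F → ModuleCat.{w} E
  /-- the second functor, of the index `m` -/
  D : ℤ → Sch F → ModuleCat.{w} E
  /-- the map between them -/
  reg : ∀ (m : ℤ) (Y : Sch F), M m Y →ₗ[E] D m Y
  /-- the correspondences from `S` to `Y` which map the index `m0` to the index `m` -/
  Cyc : ℤ → Sch F → Type u
  /-- the operation `c_*` on the first functor -/
  actM : ∀ {m : ℤ} {Y : Sch F}, Cyc m Y → M m0 S →ₗ[E] M m Y
  /-- the operation `c_*` on the second functor -/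
  actD : ∀ {m : ℤ} {Y : Sch F}, Cyc m Y → D m0 S →ₗ[E] D m Y
  /-- the diagonal -/
  diag : Cyc m0 S

section

variable {F : Type} [Field F] {E : Type w'} [CommRing E] {S : Sch F} {m0 : ℤ}

/-- The map commutes with correspondences, and the diagonal operates as the identity. -/
structure IsReg (D : RegData.{w, w', u} F E S m0) : Prop where
  comm : ∀ (m : ℤ) (Y : Sch F) (c : D.Cyc m Y) (x : D.M m0 S),
    D.reg m Y (D.actM c x) = D.actD c (D.reg m0 S x)
  diagM : ∀ x, D.actM D.diag x = x
  diagD : ∀ y, D.actD D.diag y = y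

/-- The map is an isomorphism for `S`. -/
def Iso (D : RegData.{w, w', u} F E S m0) : Prop := Function.Bijective (D.reg m0 S)

/-- Correspondences `c` from `S` to `Y` map the kernel of the map for `S` to zero, and all classes `y` to
the image of the map for `Y`. -/
def RegStable (D : RegData.{w, w', u} F E S m0) (m : ℤ) (Y : Sch F) : Prop :=
  ∀ c : D.Cyc m Y, (∀ x, D.reg m0 S x = 0 → D.actM c x = 0) ∧
    ∀ y, D.actD c y ∈ LinearMap.range (D.reg m Y)

/-- The corresponding set of classes. -/
def toReach (D : RegData.{w, w', u} F E S m0) : Reach.{w, w', u} F E S m0 where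
  H m Y := ModuleCat.of E (D.M m Y × D.D m Y)
  A m Y := (⊥ : Submodule E (D.M m Y)).prod (LinearMap.range (D.reg m Y))
  Corr := D.Cyc
  act c := (D.actM c).prodMap (D.actD c)
  one := D.diag
  J := {x | D.reg m0 S x.1 = 0}

variable {D : RegData.{w, w', u} F E S m0}

theorem isReach (hD : IsReg D) : IsReach (toReach D) where
  act_mem m Y _ c x hx := by
    obtain ⟨h1, z, hz⟩ := hx
    refine ⟨?_, D.actM c z, ?_⟩
    · change x.1 = 0 at h1
      change D.actM c x.1 = 0
      rw [h1, map_zero]
    · change _ = D.actD c x.2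
      rw [hD.comm, hz]
  act_one x := by
    change ((D.actM D.diag x.1, D.actD D.diag x.2) : D.M m0 S × D.D m0 S) = x
    rw [hD.diagM, hD.diagD]
    rfl

theorem holds_iff : Holds (toReach D) ↔ Iso D := by
  constructor
  · intro h
    refine ⟨(injective_iff_map_eq_zero _).mpr fun x hx => ?_, fun y => ?_⟩
    · exact (h (x, 0) hx).1
    · obtain ⟨z, hz⟩ := (h (0, y) (map_zero (D.reg m0 S))).2
      exact ⟨z, hz⟩
  · intro h x hx
    refine ⟨?_, ?_⟩
    · exact (injective_iff_map_eq_zero _).mp h.1 x.1 hx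
    · obtain ⟨z, hz⟩ := h.2 x.2
      exact ⟨z, hz⟩

theorem closed_iff (m : ℤ) (Y : Sch F) : Closed (toReach D) m Y ↔ RegStable D m Y := by
  constructor
  · intro h c
    refine ⟨fun x hx => ?_, fun y => ?_⟩
    · exact (h c (x, 0) hx).1
    · exact (h c (0, y) (map_zero (D.reg m0 S))).2
  · intro h c x hx
    exact ⟨(h c).1 x.1 hx, (h c).2 x.2⟩

end

/-- **The regulator of one smooth projective scheme and finitely many cubic hypersurfaces.** -/
theorem reg_finite {F : Type} [Field F] [PerfectField F] {S : Sch F} (hS : SmoothProj S) {n : ℕ}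
    (hn : topologicalKrullDim S.left ≤ n) (n1 : ℕ) (m0 : ℤ) :
    ∃ (L L' : List (Form F)) (G : List Graph),
      (∀ t ∈ L, t.Block (n + 2) ∧ ¬ t.Block (n1 + 2)) ∧
      ∀ (E : Type w') [CommRing E] (D : RegData.{w, w', u} F E S m0)
        (C : PairData.{w} F (ℤ × ℤ) E), IsReg D → IsWeightPair C → WeightGen C →
        (∀ Y, SmoothProj Y → ∀ m, (BijAt C Prod.fst m Y ↔ RegStable D m Y)) →
        (∀ Y : Sch F, SmoothProj Y → topologicalKrullDim Y.left ≤ n1 → BijAll C Y) →
        (Iso D ↔ ∀ t ∈ L, BijAll C t.hyp) ∧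
        (Iso D ↔ ∀ t ∈ L', BijAt C Prod.fst (m0 - 1 + t.a) t.hyp) ∧
        (Frac F → (Iso D ↔ ∀ g ∈ G, BijAll C (g.hyp F))) ∧
        (Iso D → ∀ t : Form F, BijAll C t.hyp) ∧
        (∀ t : Form F, t.Block (n1 + 2) → BijAll C t.hyp) := by
  obtain ⟨L, L', G, hL, h⟩ := reach_finite.{w, w', u} hS hn n1 m0
  refine ⟨L, L', G, hL, fun E _ D C hD hC hg bij low => ?_⟩
  have h1 := h E (toReach D) C (isReach hD) hC hg
    (fun Y hY m => (bij Y hY m).trans (closed_iff m Y).symm) low
  simpa only [holds_iff] using h1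

end Pool.Agent.Q68.OV
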